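import Pool.Agent.H99.CE.Targets

/-!
# Rows IND, NAT, BBX, WPF, REX of crx
-/

set_option autoImplicit false

open MeasureTheory ProbabilityTheory Filter Topology
open scoped ENNReal
open Pool.Agent.H95 Pool.Agent.H95.Cop Pool.Agent.H96.Cop Pool.Agent.H99.CE

namespace Pool.Agent.H91.CRX

theorem pf_IND : T_IND := by
  intro ν _ B f Ψ hfm hf hΨ
  have hmp := measurePreserving_splice ν B
  have hm : Measurable (fun x : ℕ → ℝ => Ψ (f x, shift B x)) :=
    hΨ.comp (hfm.prodMk (measurable_shift B))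
  have h0 : ∫⁻ q, (fun x => Ψ (f x, shift B x)) (splice B q) ∂((iid ν).prod (iid ν)) =
      ∫⁻ x, (fun x => Ψ (f x, shift B x)) x ∂(iid ν) := hmp.lintegral_comp hm
  simp only at h0
  have h2 : ∀ q : (ℕ → ℝ) × (ℕ → ℝ),
      Ψ (f (splice B q), shift B (splice B q)) = Ψ (f q.1, q.2) := by
    intro q
    rw [hf.splice_eq, shift_splice]
  simp only [h2] at h0
  have hm2 : Measurable (fun q : (ℕ → ℝ) × (ℕ → ℝ) => Ψ (f q.1, q.2)) :=
    hΨ.comp ((hfm.comp measurable_fst).prodMk measurable_snd)
  constructor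
  · rw [← h0, lintegral_prod _ hm2.aemeasurable]
  · rw [← h0, lintegral_prod_symm _ hm2.aemeasurable]

theorem pf_NAT : T_NAT := by
  intro α σ c δ k B M hα hσ hc hδ hk hkB hM
  have hB0 : (0 : ℝ) < B := by exact_mod_cast (by omega : 0 < B)
  have hk0 : (0 : ℝ) < k := by exact_mod_cast (by omega : 0 < k)
  have hM0 : (0 : ℝ) < M := by exact_mod_cast (by omega : 0 < M)
  have hcq : 0 < cq c δ := by unfold cq; positivity
  have hsg : 0 < sg α σ := by unfold sg; positivity
  have hth : (1 + α) * th α σ = 1 + sg α σ := by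
    unfold th sg
    have : 1 + α ≠ 0 := by linarith
    field_simp
  have htb : 0 < tb α c δ B := by unfold tb; positivity
  have hkB' : (k : ℝ) / B ≤ 1 := by
    rw [div_le_one hB0]; exact_mod_cast hkB
  have e5 : na α σ c δ k B = α ^ 2 * tb α c δ B ^ th α σ * ((k : ℝ) / B) ^ sg α σ := by
    unfold na tb
    rw [Real.div_rpow (Real.rpow_nonneg hB0.le _) hcq.le, ← Real.rpow_mul hB0.le, hth,
      Real.div_rpow hk0.le hB0.le, Real.rpow_add hB0, Real.rpow_one, Real.rpow_neg hcq.le]
    have h1 : (B : ℝ) ^ sg α σ ≠ 0 := (Real.rpow_pos_of_pos hB0 _).ne'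
    field_simp
  refine ⟨?_, htb, ?_, ?_, e5, hth, hsg, ?_⟩
  · unfold na
    have h1 : 0 < (k : ℝ) ^ sg α σ := Real.rpow_pos_of_pos hk0 _
    have h2 : 0 < cq c δ ^ (-th α σ) := Real.rpow_pos_of_pos hcq _
    positivity
  · unfold na
    push_cast
    ring
  · unfold tb
    push_cast
    rw [Real.mul_rpow hM0.le hB0.le]
    ring
  · rw [e5]
    have h1 : ((k : ℝ) / B) ^ sg α σ ≤ 1 := Real.rpow_le_one (by positivity) hkB' hsg.le
    have h2 : 0 ≤ α ^ 2 * tb α c δ B ^ th α σ := by positivity
    exact mul_le_of_le_one_right h2 h1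

theorem pf_BBX : T_BBX := by
  intro w B M j x hB hM
  unfold BX
  rw [sum_cells B M]
  apply Finset.sum_congr rfl
  intro i _
  have h1 : ∀ e1 ∈ Finset.range B, ∑ r' ∈ Finset.range (M * B),
      (if i * B + e1 ≤ j * (M * B) + r' then
        PF w (j * (M * B) + r' - (i * B + e1)) (shift (i * B + e1) x) else 0) =
      ∑ r ∈ Finset.range M, ∑ r1 ∈ Finset.range B,
      (if i * B + e1 ≤ j * (M * B) + (r * B + r1) then
        PF w (j * (M * B) + (r * B + r1) - (i * B + e1)) (shift (i * B + e1) x) else 0) := by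
    intro e1 _
    rw [sum_cells B M]
  rw [Finset.sum_congr rfl h1, Finset.sum_comm]
  apply Finset.sum_congr rfl
  intro r _
  split_ifs with hi
  · obtain ⟨q, hq⟩ : ∃ q, j * M + r = q + i := ⟨j * M + r - i, by omega⟩
    have hq2 : j * M + r - i = q := by omega
    rw [hq2]
    have hq3 : j * (M * B) + r * B = q * B + i * B := by
      have : (j * M + r) * B = (q + i) * B := by rw [hq]
      calc j * (M * B) + r * B = (j * M + r) * B := by ring
        _ = q * B + i * B := by rw [this]; ring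
    apply Finset.sum_congr rfl
    intro e1 _
    apply Finset.sum_congr rfl
    intro r1 _
    by_cases h : e1 ≤ q * B + r1
    · rw [if_pos h, if_pos (by omega), shift_shift]
      have e2 : j * (M * B) + (r * B + r1) - (i * B + e1) = q * B + r1 - e1 := by omega
      rw [e2, add_comm e1 (i * B)]
    · rw [if_neg h, if_neg (by omega)]
  · apply Finset.sum_eq_zero
    intro e1 _
    apply Finset.sum_eq_zero
    intro r1 hr1
    rw [Finset.mem_range] at hr1
    have h2 : (j * M + r + 1) * B ≤ i * B := Nat.mul_le_mul_right B (by omega)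
    have h3 : (j * M + r + 1) * B = j * (M * B) + r * B + B := by ring
    rw [if_neg (by omega)]

theorem pf_WPF : T_WPF := by
  intro K hK0 N B
  induction N using Nat.strong_induction_on with
  | _ N ih =>
    intro hNB x
    refine (Wn_rec K hK0 N x).trans ?_
    rw [Finset.sum_range_succ', PF_zero, one_mul]
    refine add_le_add ?_ le_rfl
    cases N with
    | zero => simp
    | succ M =>
      rw [Finset.sum_range_succ']
      rw [pk_zero K hK0, zero_mul, zero_mul, add_zero]
      have h1 : ∀ j ∈ Finset.range M,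
          pk K (j + 1) * (2⁻¹ * (1 + ex 0 (j + 1) x)) * Wn K (M + 1 - (j + 1)) (shift (j + 1) x) ≤
          ∑ t ∈ Finset.range (M + 1 - j), w1 K B (j + 1) x * PF (w1 K B) t (shift (j + 1) x) *
            (1 + ex (j + t + 1) (M + 1) x) := by
        intro j hj
        rw [Finset.mem_range] at hj
        have h2 := ih (M + 1 - (j + 1)) (by omega) (by omega) (shift (j + 1) x)
        have e1 : pk K (j + 1) * (2⁻¹ * (1 + ex 0 (j + 1) x)) = w1 K B (j + 1) x := by
          unfold w1 wa wb
          rw [if_pos (by omega)]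
          ring
        rw [e1]
        have e2 : M + 1 - (j + 1) + 1 = M + 1 - j := by omega
        rw [e2] at h2
        refine (mul_le_mul_right h2 _).trans (le_of_eq ?_)
        rw [Finset.mul_sum]
        apply Finset.sum_congr rfl
        intro t _
        rw [ex_shift, ← mul_assoc]
        have e3 : t + (j + 1) = j + t + 1 := by omega
        have e4 : M + 1 - (j + 1) + (j + 1) = M + 1 := by omega
        rw [e3, e4]
      refine (Finset.sum_le_sum h1).trans ?_
      have h3 : ∑ s ∈ Finset.range (M + 1), PF (w1 K B) (s + 1) x * (1 + ex (s + 1) (M + 1) x) =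
          ∑ s ∈ Finset.range (M + 1), ∑ j ∈ Finset.range (s + 1),
            w1 K B (j + 1) x * PF (w1 K B) (s - j) (shift (j + 1) x) *
              (1 + ex (j + (s - j) + 1) (M + 1) x) := by
        apply Finset.sum_congr rfl
        intro s _
        rw [PF_succ, Finset.sum_mul]
        apply Finset.sum_congr rfl
        intro j hj
        rw [Finset.mem_range] at hj
        have e1 : j + (s - j) = s := by omega
        rw [e1]
      rw [h3, ← sum_tri (M + 1) (fun j t => w1 K B (j + 1) x *
        PF (w1 K B) t (shift (j + 1) x) * (1 + ex (j + t + 1) (M + 1) x))]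
      apply Finset.sum_le_sum_of_subset
      exact Finset.range_mono (Nat.le_succ M)

/-! ## REX -/

theorem sum_shift_le (g : ℕ → ℝ≥0∞) (n c : ℕ) (hc : 1 ≤ c) :
    ∑ e ∈ Finset.range n, (if c ≤ e then g (e - c) else 0) ≤ ∑ e ∈ Finset.range (n - 1), g e := by
  rw [← Finset.sum_filter]
  rw [← Finset.sum_image (s := (Finset.range n).filter (fun e => c ≤ e)) (g := fun e => e - c)
    (f := g)]
  · apply Finset.sum_le_sum_of_subset
    intro u hu
    rw [Finset.mem_image] at hu
    obtain ⟨e, he, rfl⟩ := hu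
    rw [Finset.mem_filter, Finset.mem_range] at he
    rw [Finset.mem_range]
    omega
  · intro a ha b hb hab
    rw [Finset.mem_coe, Finset.mem_filter] at ha hb
    have : a - c = b - c := hab
    omega

theorem triple_le (G : ℕ → ℕ → ℕ → ℝ≥0∞) (n : ℕ) :
    ∑ e ∈ Finset.range n, ∑ b ∈ Finset.range (e + 1), ∑ D ∈ Finset.Icc 1 e,
      (if b + D ≤ e then G b D (e - b - D) else 0) ≤
    ∑ b ∈ Finset.range n, ∑ D ∈ Finset.Icc 1 n, ∑ e ∈ Finset.range (n - 1), G b D e := by
  have h1 : ∑ e ∈ Finset.range n, ∑ b ∈ Finset.range (e + 1), ∑ D ∈ Finset.Icc 1 e,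
      (if b + D ≤ e then G b D (e - b - D) else 0) ≤
      ∑ e ∈ Finset.range n, ∑ b ∈ Finset.range n, ∑ D ∈ Finset.Icc 1 n,
      (if b + D ≤ e then G b D (e - b - D) else 0) := by
    apply Finset.sum_le_sum
    intro e he
    rw [Finset.mem_range] at he
    refine (Finset.sum_le_sum_of_subset (Finset.range_mono (by omega : e + 1 ≤ n))).trans ?_
    apply Finset.sum_le_sum
    intro b _
    apply Finset.sum_le_sum_of_subset
    exact Finset.Icc_subset_Icc_right he.le
  refine h1.trans ?_
  rw [Finset.sum_comm]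
  apply Finset.sum_le_sum
  intro b _
  rw [Finset.sum_comm]
  apply Finset.sum_le_sum
  intro D hD
  rw [Finset.mem_Icc] at hD
  have h2 := sum_shift_le (G b D) n (b + D) (by omega)
  refine le_trans (le_of_eq ?_) h2
  apply Finset.sum_congr rfl
  intro e _
  rw [Nat.sub_sub]

theorem triple_prod (f l y : ℕ → ℝ≥0∞) (s t u : Finset ℕ) :
    ∑ b ∈ s, ∑ D ∈ t, ∑ e ∈ u, f b * (l D * y e) =
      (∑ b ∈ s, f b) * ((∑ D ∈ t, l D) * ∑ e ∈ u, y e) := by
  rw [Finset.sum_mul]
  apply Finset.sum_congr rfl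
  intro b _
  rw [Finset.sum_mul, Finset.mul_sum]
  apply Finset.sum_congr rfl
  intro D _
  rw [Finset.mul_sum, Finset.mul_sum]

theorem pf_REX : T_REX := by
  intro f l y fh lh hy hf hl hfl
  have h4 : 4 * (fh * lh) ≤ 1 := by
    calc 4 * (fh * lh) ≤ 4 * 4⁻¹ := by gcongr
      _ = 1 := ENNReal.mul_inv_cancel (by norm_num) (by norm_num)
  -- first sum
  have hstep : ∀ n, ∑ e ∈ Finset.range n, y e ≤
      fh + fh * (lh * ∑ e ∈ Finset.range (n - 1), y e) := by
    intro n
    calc ∑ e ∈ Finset.range n, y e ≤ ∑ e ∈ Finset.range n, (f e +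
          ∑ b ∈ Finset.range (e + 1), ∑ D ∈ Finset.Icc 1 e,
            if b + D ≤ e then f b * (l D * y (e - b - D)) else 0) :=
          Finset.sum_le_sum fun e _ => hy e
      _ = ∑ e ∈ Finset.range n, f e + ∑ e ∈ Finset.range n,
          ∑ b ∈ Finset.range (e + 1), ∑ D ∈ Finset.Icc 1 e,
            (if b + D ≤ e then f b * (l D * y (e - b - D)) else 0) := Finset.sum_add_distrib
      _ ≤ fh + ∑ b ∈ Finset.range n, ∑ D ∈ Finset.Icc 1 n, ∑ e ∈ Finset.range (n - 1),
            f b * (l D * y e) :=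
          add_le_add (hf n) (triple_le (fun b D e => f b * (l D * y e)) n)
      _ = fh + (∑ b ∈ Finset.range n, f b) * ((∑ D ∈ Finset.Icc 1 n, l D) *
            ∑ e ∈ Finset.range (n - 1), y e) := by rw [triple_prod]
      _ ≤ fh + fh * (lh * ∑ e ∈ Finset.range (n - 1), y e) := by
          gcongr
          · exact hf n
          · exact hl n
  have hY : ∀ n, 3 * ∑ e ∈ Finset.range n, y e ≤ 4 * fh := by
    intro n
    induction n with
    | zero => simp
    | succ n ih =>
      have h1 := hstep (n + 1)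
      rw [Nat.add_sub_cancel] at h1
      have h2 : 4 * (3 * ∑ e ∈ Finset.range (n + 1), y e) ≤ 4 * (4 * fh) := by
        calc 4 * (3 * ∑ e ∈ Finset.range (n + 1), y e)
            ≤ 4 * (3 * (fh + fh * (lh * ∑ e ∈ Finset.range n, y e))) := by gcongr
          _ = 12 * fh + (4 * (fh * lh)) * (3 * ∑ e ∈ Finset.range n, y e) := by ring
          _ ≤ 12 * fh + 1 * (4 * fh) := by gcongr
          _ = 4 * (4 * fh) := by ring
      exact (ENNReal.mul_le_mul_iff_right (by norm_num) (by norm_num)).1 h2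
  refine ⟨?_, ?_⟩
  · intro n
    have h1 := hY n
    have h2 : 3 * ∑ e ∈ Finset.range n, y e ≤ 3 * (2 * fh) := by
      refine h1.trans ?_
      calc 4 * fh ≤ 6 * fh := by gcongr; norm_num
        _ = 3 * (2 * fh) := by ring
    exact (ENNReal.mul_le_mul_iff_right (by norm_num) (by norm_num)).1 h2
  · intro f1 l1 hf1 hl1
    have hstep1 : ∀ n, ∑ e ∈ Finset.range n, (e : ℝ≥0∞) * y e ≤
        f1 + (f1 * (lh * ∑ e ∈ Finset.range (n - 1), y e) +
          fh * (l1 * ∑ e ∈ Finset.range (n - 1), y e) +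
          fh * (lh * ∑ e ∈ Finset.range (n - 1), (e : ℝ≥0∞) * y e)) := by
      intro n
      have e1 : ∀ e : ℕ, (e : ℝ≥0∞) * y e ≤ (e : ℝ≥0∞) * f e +
          ∑ b ∈ Finset.range (e + 1), ∑ D ∈ Finset.Icc 1 e,
            if b + D ≤ e then ((b : ℝ≥0∞) * f b) * (l D * y (e - b - D)) +
              f b * (((D : ℝ≥0∞) * l D) * y (e - b - D)) +
              f b * (l D * (((e - b - D : ℕ) : ℝ≥0∞) * y (e - b - D))) else 0 := by
        intro e
        refine (mul_le_mul_right (hy e) _).trans ?_
        rw [mul_add]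
        refine add_le_add le_rfl (le_of_eq ?_)
        rw [Finset.mul_sum]
        apply Finset.sum_congr rfl
        intro b _
        rw [Finset.mul_sum]
        apply Finset.sum_congr rfl
        intro D _
        split_ifs with h
        · have e2 : (e : ℝ≥0∞) = (b : ℝ≥0∞) + D + ((e - b - D : ℕ) : ℝ≥0∞) := by
            have : e = b + D + (e - b - D) := by omega
            exact_mod_cast congrArg (Nat.cast : ℕ → ℝ≥0∞) this
          conv_lhs => rw [e2]
          ring
        · rw [mul_zero]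
      calc ∑ e ∈ Finset.range n, (e : ℝ≥0∞) * y e ≤ ∑ e ∈ Finset.range n, ((e : ℝ≥0∞) * f e +
          ∑ b ∈ Finset.range (e + 1), ∑ D ∈ Finset.Icc 1 e,
            if b + D ≤ e then ((b : ℝ≥0∞) * f b) * (l D * y (e - b - D)) +
              f b * (((D : ℝ≥0∞) * l D) * y (e - b - D)) +
              f b * (l D * (((e - b - D : ℕ) : ℝ≥0∞) * y (e - b - D))) else 0) :=
            Finset.sum_le_sum fun e _ => e1 e
        _ = ∑ e ∈ Finset.range n, (e : ℝ≥0∞) * f e + ∑ e ∈ Finset.range n,
          ∑ b ∈ Finset.range (e + 1), ∑ D ∈ Finset.Icc 1 e,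
            (if b + D ≤ e then ((b : ℝ≥0∞) * f b) * (l D * y (e - b - D)) +
              f b * (((D : ℝ≥0∞) * l D) * y (e - b - D)) +
              f b * (l D * (((e - b - D : ℕ) : ℝ≥0∞) * y (e - b - D))) else 0) :=
            Finset.sum_add_distrib
        _ ≤ f1 + ∑ b ∈ Finset.range n, ∑ D ∈ Finset.Icc 1 n, ∑ e ∈ Finset.range (n - 1),
            (((b : ℝ≥0∞) * f b) * (l D * y e) + f b * (((D : ℝ≥0∞) * l D) * y e) +
              f b * (l D * ((e : ℝ≥0∞) * y e))) :=
            add_le_add (hf1 n) (triple_le (fun b D e => ((b : ℝ≥0∞) * f b) * (l D * y e) +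
              f b * (((D : ℝ≥0∞) * l D) * y e) + f b * (l D * ((e : ℝ≥0∞) * y e))) n)
        _ = f1 + ((∑ b ∈ Finset.range n, (b : ℝ≥0∞) * f b) * ((∑ D ∈ Finset.Icc 1 n, l D) *
              ∑ e ∈ Finset.range (n - 1), y e) +
            (∑ b ∈ Finset.range n, f b) * ((∑ D ∈ Finset.Icc 1 n, (D : ℝ≥0∞) * l D) *
              ∑ e ∈ Finset.range (n - 1), y e) +
            (∑ b ∈ Finset.range n, f b) * ((∑ D ∈ Finset.Icc 1 n, l D) *
              ∑ e ∈ Finset.range (n - 1), (e : ℝ≥0∞) * y e)) := by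
            simp only [Finset.sum_add_distrib]
            rw [triple_prod (fun b => (b : ℝ≥0∞) * f b) l y,
              triple_prod f (fun D => (D : ℝ≥0∞) * l D) y,
              triple_prod f l (fun e => (e : ℝ≥0∞) * y e)]
        _ ≤ _ := by
            gcongr
            · exact hf1 n
            · exact hl n
            · exact hf n
            · exact hl1 n
            · exact hf n
            · exact hl n
    intro n
    induction n with
    | zero => simp
    | succ n ih =>
      have h1 := hstep1 (n + 1)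
      rw [Nat.add_sub_cancel] at h1
      have h3 := hY n
      have h2 : 12 * ∑ e ∈ Finset.range (n + 1), (e : ℝ≥0∞) * y e ≤
          12 * (2 * (f1 + fh ^ 2 * l1)) := by
        calc 12 * ∑ e ∈ Finset.range (n + 1), (e : ℝ≥0∞) * y e
            ≤ 12 * (f1 + (f1 * (lh * ∑ e ∈ Finset.range n, y e) +
                fh * (l1 * ∑ e ∈ Finset.range n, y e) +
                fh * (lh * ∑ e ∈ Finset.range n, (e : ℝ≥0∞) * y e))) := by gcongr
          _ = 12 * f1 + 4 * f1 * lh * (3 * ∑ e ∈ Finset.range n, y e) +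
              4 * fh * l1 * (3 * ∑ e ∈ Finset.range n, y e) +
              3 * (4 * (fh * lh)) * ∑ e ∈ Finset.range n, (e : ℝ≥0∞) * y e := by ring
          _ ≤ 12 * f1 + 4 * f1 * lh * (4 * fh) + 4 * fh * l1 * (4 * fh) +
              3 * 1 * (2 * (f1 + fh ^ 2 * l1)) := by gcongr
          _ = 12 * f1 + 4 * f1 * (4 * (fh * lh)) + 16 * (fh ^ 2 * l1) +
              6 * (f1 + fh ^ 2 * l1) := by ring
          _ ≤ 12 * f1 + 4 * f1 * 1 + 16 * (fh ^ 2 * l1) + 6 * (f1 + fh ^ 2 * l1) := by gcongr
          _ = 22 * (f1 + fh ^ 2 * l1) := by ring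
          _ ≤ 24 * (f1 + fh ^ 2 * l1) := by gcongr; norm_num
          _ = 12 * (2 * (f1 + fh ^ 2 * l1)) := by ring
      exact (ENNReal.mul_le_mul_iff_right (by norm_num) (by norm_num)).1 h2

end Pool.Agent.H91.CRX
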